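import Pool.Agent.K4H25.LF.F6

/-!
# `A¹`-uniruledness and the logarithmic Kodaira dimension of the images of fibrations by open curves

**1. Fibrations by open curves.** Let `V°` be an open variety over `ℂ`, of dimension `n + 1`, and `t` a
rational map from `V°` to a product of `q` projective spaces `P_1 × ... × P_q` with irreducible general
fibres, whose image `V'` has dimension `n`. The fibres are open curves, of any genus. Let `H p` be the
pull-back of the hyperplane class of `P_p`, and let `ω j` be sections of `K_V + D - ∑ M p H p`, where `D` is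
the boundary of `V°`: logarithmic canonical forms such that `A(t) ω j` is logarithmic for all polynomials
`A` whose degree in the variables of the block `p` is at most `M p`. Suppose that the restrictions of the
`ω j` to the geometric generic fibre of `V° → V'` generate its logarithmic differentials (for example,
there are no `ω j` if the generic fibre is the line or the affine line). The special fibres, the base
`V'` and the boundary are arbitrary.

Let `V° → W°` be a dominant rational map of finite degree such that the boundary of `V°` is the preimage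
of the boundary of `W°`, for example any finite morphism. The map is arbitrary otherwise; it is not
assumed to be related to the fibration, or to be Galois. Let `W'` be the image of `V` in `W × V'` and, for a
nonempty set `Λ` of blocks, let `m Λ` be the degree of `W'` over its image in the product of `W` and the
`P_p`, `p ∉ Λ`, and `m` the degree of `W' → W`; so `m Λ ≤ m`, and `m` is at most the degree of
`V° → W°`.

* If `m Λ ≤ 1 + ∑_{p ∈ Λ} M p` for all `Λ ≠ ∅`, then these are equivalent: `W°` has no logarithmic
  canonical forms; the logarithmic Kodaira dimension of `W°` is `-∞`; `K_W + D_W` is not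
  pseudo-effective; `W°` is `A¹`-uniruled. Let moreover `r ≤ n` be such that
  `2 m Λ ≤ 1 + ∑_{p ∈ Λ} M p` for all `Λ ≠ ∅` for which the image of `V'` in the product of the `P_p`,
  `p ∉ Λ`, has dimension less than `r`. Then `W°` is `A¹`-uniruled or its logarithmic Kodaira dimension is
  at least `r`.
* If `m ≤ M p` for all `p` then `W°` is `A¹`-uniruled or its logarithmic Kodaira dimension is at least
  `n - 1 = dim W - 2`, and even at least `n` if `κ(V') ≥ 0`.

**2. Complements of hypersurfaces.** Let `h` be a Laurent polynomial in `x 1, ..., x n, y` which is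
nondegenerate with respect to its Newton polytope (Khovanskii), with the exponents of `y` between `0`
and `a`, and let `S` be any set of nonzero integral vectors. Let `V°` be the complement of the closure of
`{h = 0}`, and of the divisors with the directions in `S`, in the toric varieties of the Newton polytope:
the places `P` of `ℂ(x, y)` in the boundary are those with `v := ord_P (x, y) ∈ S` or
`ord_P h > min ⟨supp h, v⟩`. Divide the variables `x 1, ..., x n` into `q` blocks. Suppose that for each
`0 ≤ i ≤ a` there is an exponent `u i`, with the last coordinate `i`, such that the exponents `u i + c` with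
`c ∈ ℕ ^ n` whose sum in the block `p` is at most `M p`, for all `p`, satisfy the inequalities of the Newton
polytope, and the strict ones in the directions which are not in `S`; for `i = 0` (for `i = a`) this is
needed only if the direction of the divisor `y = 0` (of `y = ∞`) is in `S`. Then the conclusions of
part 1 are true for all images `W°` of `V°`, with the blocks `P_p = ℙ ^ (n p)`.

*Example.* Let `V°` be the complement of a general hypersurface of multidegree `(e 1, ..., e q, a)` in
`ℙ ^ (n 1) × ... × ℙ ^ (n q) × ℙ ^ 1`, with any `a` and `e p ≥ n p + 1 + M p`. For all finite morphisms from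
`V°` to a variety `W°` with `m ≤ 1 + min M p`, the variety `W°` is `A¹`-uniruled if and only if its
logarithmic Kodaira dimension is `-∞`.

Proof. If the traces on `W'` of all `ω j` vanish, then the open curve which is the image of the geometric
generic fibre of `V° → V'` in that of `W' → V'` has no logarithmic differentials, so it is the projective
line minus at most one point, and `W°` is `A¹`-uniruled (`Pool.Agent.K4H25.LP.dichL`). Otherwise let `h` be the
trace on `W'` of some `ω j`. The logarithmic forms `Tr (A(t) h)` on `W°` have sufficiently many independent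
ratios, since the points of the fibres of `W' → W` are separated by the products of few linear forms
(marriage theorem), and by the Cayley-Bacharach theorem for double points if `m ≤ M p`. For part 2, the
forms `x ^ w (dx/x ∧ dy/y) / h` are logarithmic by nondegeneracy (Cramer's rule for the logarithmic
gradient of `h`), and their restrictions to the fibres are the `y ^ (i - 1) dy / h`.

Compare: `OpenCurveProducts` treats products of open curves (with conditions on their gonality),
`ToricFibrations` fibrations over curves, and the starting file `ImagesOverAffineLine` maps from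
nondegenerate varieties over a torus; here the base has any dimension, the fibres any genus, and the
map `V° → W°` is arbitrary.
-/

set_option autoImplicit false
set_option linter.overlappingInstances false
set_option maxHeartbeats 4000000
set_option synthInstance.maxHeartbeats 400000

open FF Module Pool.Agent Pool.Agent.W602.GT Pool.Agent.R885
open Pool.Agent.R882.LT (LogGenusZero)
open Pool.Agent.W603.LV (vo)
open Pool.Agent.W619.PL (IsA1Uniruled)

namespace Pool.Agent.Results.MP_410da7_ag.OpenCurveFibrations

variable {K : Type} [Field K] [Algebra ℂ K]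

/-- `ω` is a section of `K_V + D - ∑ M p H p` on the open variety of dimension `n` with the function
field `K` and the boundary `Bd`, where the variable `t j` is in the block `β j`: the canonical forms
`t ^ a ω` such that the degree of `t ^ a` in the variables of the block `p` is at most `M p` have at most
logarithmic poles at all prime divisors, and no poles at those which are not in the boundary. -/
def Twisted {N q : ℕ} (n : ℕ) (Bd : Place ℂ K → Prop) (β : Fin N → Fin q) (M : Fin q → ℕ)
    (t : Fin N → K) (ω : (Fin n → Derivation ℂ K K) → K) : Prop :=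
  IsPluri 1 ω ∧ ∀ a : Fin N → ℕ, (∀ p, ∑ j with β j = p, a j ≤ M p) → ∀ P : Place ℂ K,
    Divisorial n P → LogAt P (fun D => (∏ j, t j ^ a j) * ω D) ∧
      (¬ Bd P → RegAt P (fun D => (∏ j, t j ^ a j) * ω D))

/-- The degree `m Λ` of `W'` over its image in the product of `W` and the factors outside of `Λ`: the
degree of the field `L(t)` over its subfield which is generated over `L = ℂ(W)` by the variables
`t j` outside of the blocks in `Λ`. -/
noncomputable def blockDegree {N q : ℕ} (L : Type) [Field L] [Algebra L K]
    (β : Fin N → Fin q) (t : Fin N → K) (Λ : Finset (Fin q)) : ℕ :=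
  (IntermediateField.adjoin L (t '' {j | β j ∉ Λ})).relfinrank
    (IntermediateField.adjoin L (Set.range t))

/-- The point (the place) `Q` of the curve with the function field `F` over `Λ` lies over a place of
`K ⊂ F` in the boundary. -/
def OverBoundary {Λ F : Type} [Field Λ] [Field F] [Algebra Λ F] (φ : K → F)
    (Bd : Place ℂ K → Prop) (Q : Place Λ F) : Prop :=
  ∃ (P : Place ℂ K) (e : ℕ), 0 < e ∧ (∀ z : K, Q.ord (φ z) = e * P.ord z) ∧ Bd P

/-- The restrictions of the forms `ω j` generate the logarithmic differentials of the geometric
generic fibre of the fibration over the variety with the function field `B ⊂ K`: for the function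
field `F = Λ(K)` of the geometric generic fibre, with `Λ ⊃ B` algebraically closed, and the vector field
`D` on it dual to `ξ ∈ K`, all functions `f` such that the differential with the value `f` on `D` is
logarithmic, that is, `ord_Q f + 1 ≥ vo Q D`, and `ord_Q f ≥ vo Q D` if `Q` does not lie over the boundary
(`vo Q D` is the order of the vector field `D` at `Q`), are linear combinations over `Λ` of the values
of the `ω j` on the frame dual to coordinates of the base and `ξ`. -/
def GenerateFibre {n : ℕ} {J : Type} (B : IntermediateField ℂ K) (Bd : Place ℂ K → Prop)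
    (ω : J → (Fin (n + 1) → Derivation ℂ K K) → K) : Prop :=
  ∀ (Λ F : Type) [Field Λ] [IsAlgClosed Λ] [Algebra ℂ Λ] [Field F] [Algebra Λ F]
    [Algebra ℂ F] [IsScalarTower ℂ Λ F] (φ : K →ₐ[ℂ] F), IsFF Λ F →
    IntermediateField.adjoin Λ (Set.range φ) = ⊤ →
    (∀ z ∈ B, ∃ a : Λ, algebraMap Λ F a = φ z) →
    (∀ z : K, ¬ IsAlgebraic B z → Transcendental Λ (φ z)) →
    ∀ (y : Fin n → K) (ξ : K), (∀ j, y j ∈ B) →
      IsTranscendenceBasis ℂ (Fin.append y (fun _ : Fin 1 => ξ)) →
    ∀ E : Fin (n + 1) → Derivation ℂ K K,
      (∀ i j, E i (Fin.append y (fun _ : Fin 1 => ξ) j) = if i = j then 1 else 0) →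
    ∀ D : Derivation Λ F F, D (φ ξ) = 1 →
    ∀ f : F, f ≠ 0 → (∀ Q : Place Λ F, vo Q D ≤ Q.ord f + 1) →
      (∀ Q : Place Λ F, ¬ OverBoundary φ Bd Q → vo Q D ≤ Q.ord f) →
      f ∈ Submodule.span Λ (Set.range fun j => φ (ω j E))

/-- The conclusion for the open variety `W°` of dimension `n + 1` with the function field `L` and the
boundary `BW`, and the map `t` to the product of projective spaces with the blocks `β`. -/
def Conclusion {N q : ℕ} (n : ℕ) (β : Fin N → Fin q) (M : Fin q → ℕ) (t : Fin N → K)
    (L : Type) [Field L] [Algebra ℂ L] [Algebra L K] (BW : Place ℂ L → Prop) : Prop :=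
  ((∀ Λ : Finset (Fin q), Λ.Nonempty → blockDegree L β t Λ ≤ 1 + ∑ p ∈ Λ, M p) →
    [LogGenusZero L (n + 1) BW, ¬ KodGe ℂ L (n + 1) BW 0, ¬ Psef ℂ L (n + 1) BW,
      IsA1Uniruled ℂ L (n + 1) BW].TFAE ∧
    ∀ r : ℕ, r ≤ n →
      (∀ Λ : Finset (Fin q), Λ.Nonempty →
        Algebra.trdeg ℂ (IntermediateField.adjoin ℂ (t '' {j | β j ∉ Λ})) < (r : ℕ) →
        2 * blockDegree L β t Λ ≤ 1 + ∑ p ∈ Λ, M p) →
      IsA1Uniruled ℂ L (n + 1) BW ∨ KodGe ℂ L (n + 1) BW r) ∧
  ((∀ p, finrank L (IntermediateField.adjoin L (Set.range t)) ≤ M p) →
    (IsA1Uniruled ℂ L (n + 1) BW ∨ KodGe ℂ L (n + 1) BW (n - 1)) ∧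
    (KodGe ℂ (IntermediateField.adjoin ℂ (Set.range t)) n (fun _ => False) 0 →
      IsA1Uniruled ℂ L (n + 1) BW ∨ KodGe ℂ L (n + 1) BW n))

/-- The Laurent polynomial `h` is nondegenerate: all its initial parts define smooth hypersurfaces in
the torus. -/
def Nondegenerate {r : ℕ} (h : (Fin r → ℤ) →₀ ℂ) : Prop :=
  ∀ v : Fin r → ℤ, ∀ c : Fin r → ℂ, (∀ i, c i ≠ 0) → ev c (ini v h) = 0 →
    ∃ i, gr c (ini v h) i ≠ 0

/-- The exponent `w` satisfies the inequalities of the Newton polytope of `h` for all directions `v`,
and the strict inequalities for the directions which are not in `S`. -/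
def InPolytope {r : ℕ} (S : Set (Fin r → ℤ)) (h : (Fin r → ℤ) →₀ ℂ) (w : Fin r → ℤ) : Prop :=
  ∀ v : Fin r → ℤ, v ≠ 0 → mn v h ≤ w ⬝ᵥ v ∧ (v ∉ S → 1 + mn v h ≤ w ⬝ᵥ v)

/-- The boundary of the complement of `{h = 0}` and of the divisors with directions in `S`. -/
def Boundary {r : ℕ} (S : Set (Fin r → ℤ)) (x : Fin r → K) (h : (Fin r → ℤ) →₀ ℂ)
    (P : Place ℂ K) : Prop :=
  vec P x ∈ S ∨ mn (vec P x) h < P.ord (ev x h)

/-- **Images of fibrations by open curves.**
1. Let `K` be the function field and `BV` the boundary of the open variety `V°` of dimension `n + 1`,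
`t` a rational map to a product of projective spaces with image of dimension `n` and irreducible
generic fibre (`ℂ(t)` is algebraically closed in `K`), and `ω j` twisted logarithmic forms which generate
the logarithmic differentials of the geometric generic fibre. Let `V° → W°` be a dominant rational map
of finite degree, `L` the function field and `BW` the boundary of `W°`, such that the boundary of `V°` is the
preimage of the boundary of `W°`. Then the conclusion is true.
2. Let `K = ℂ(x)` be the field of rational functions in the `n + 1` variables `x i`, `h` a nondegenerate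
Laurent polynomial with the exponents of the last variable between `0` and `a`, and `S` a set of nonzero
integral vectors. If the exponents `u i + c` are in the polytope then the conclusion is true for
the images `W°` of the complement `V°` of the hypersurface `{h = 0}` and of the toric divisors with
directions in `S`, where `t` is the projection to the first `n` variables. -/
theorem result :
    (∀ {n N q : ℕ} {K : Type} [Field K] [Algebra ℂ K] [Algebra.EssFiniteType ℂ K]
      (_ : Algebra.trdeg ℂ K = (n + 1 : ℕ)) (β : Fin N → Fin q) (M : Fin q → ℕ) (t : Fin N → K)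
      (_ : Algebra.trdeg ℂ (IntermediateField.adjoin ℂ (Set.range t)) = (n : ℕ))
      (_ : ∀ g : K, IsAlgebraic (IntermediateField.adjoin ℂ (Set.range t)) g →
        g ∈ IntermediateField.adjoin ℂ (Set.range t)) (BV : Place ℂ K → Prop)
      {J : Type} [Finite J] (ω : J → (Fin (n + 1) → Derivation ℂ K K) → K)
      (_ : ∀ j, Twisted (n + 1) BV β M t (ω j))
      (_ : GenerateFibre (IntermediateField.adjoin ℂ (Set.range t)) BV ω)
      (L : Type) [Field L] [Algebra ℂ L] [Algebra L K] [IsScalarTower ℂ L K]
      [FiniteDimensional L K] (BW : Place ℂ L → Prop)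
      (_ : ∀ (P : Place ℂ L) (Q : Place ℂ K) (e : ℕ), Over Q P e → (BW P ↔ BV Q)),
      Conclusion n β M t L BW) ∧
    ∀ {n q : ℕ} {K : Type} [Field K] [Algebra ℂ K] (x : Fin (n + 1) → K)
      (_ : AlgebraicIndependent ℂ x) (_ : IntermediateField.adjoin ℂ (Set.range x) = ⊤)
      (h : (Fin (n + 1) → ℤ) →₀ ℂ) (_ : Nondegenerate h) (a : ℕ)
      (_ : ∀ m ∈ h.support, 0 ≤ m (Fin.last n) ∧ m (Fin.last n) ≤ a)
      (_ : ∃ m ∈ h.support, m (Fin.last n) = a)
      (S : Set (Fin (n + 1) → ℤ)) (_ : (0 : Fin (n + 1) → ℤ) ∉ S)
      (β : Fin n → Fin q) (M : Fin q → ℕ) (u : ℤ → Fin (n + 1) → ℤ)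
      (_ : ∀ i, u i (Fin.last n) = i)
      (_ : ∀ i : ℤ, 0 ≤ i → i ≤ a →
        (i = 0 → (Pi.single (Fin.last n) 1 : Fin (n + 1) → ℤ) ∈ S) →
        (i = a → (Pi.single (Fin.last n) (-1) : Fin (n + 1) → ℤ) ∈ S) →
        ∀ c : Fin n → ℕ, (∀ p, ∑ l with β l = p, c l ≤ M p) →
          InPolytope S h (u i + ∑ l, (c l : ℤ) • Pi.single l.castSucc 1))
      (L : Type) [Field L] [Algebra ℂ L] [Algebra L K] [IsScalarTower ℂ L K]
      [FiniteDimensional L K] (BW : Place ℂ L → Prop)
      (_ : ∀ (P : Place ℂ L) (Q : Place ℂ K) (e : ℕ),
        Over Q P e → (BW P ↔ Boundary S x h Q)),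
      Conclusion n β M (fun l : Fin n => x l.castSucc) L BW := by
  refine ⟨fun {n N q K _ _ _} hK β M t hd hcl BV {J _} ω hω hspan L _ _ _ _ _ BW hB => ?_,
    fun {n q K _ _} x hxi hgen h hf a hT1 hT2 S hS0 β M u hu hu' L _ _ _ _ _ BW hB => ?_⟩
  · exact Pool.Agent.K4H25.LF.main_fibL (β := β) (M := M) hK hd hcl hω hspan L hB
  · exact Pool.Agent.K4H25.LF.main_hyp (β := β) (M := M) hxi hgen hf
      ⟨fun m hm => (hT1 m hm).1, fun m hm => (hT1 m hm).2, hT2⟩ hS0 hu hu' (fun _ => rfl) L hB

end Pool.Agent.Results.MP_410da7_ag.OpenCurveFibrations
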