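import Pool.Agent.K4H25.LP.Full

/-!
# Logarithmic Kodaira dimension `-∞` and `A¹`-uniruledness for images of products of open curves

Let `C 0, C 1, ..., C n` be projective curves over the complex numbers, `T p` a finite set of points of
`C p` (possibly empty), `U p = C p ∖ T p`, and `V° = U 0 × ... × U n`. The curve `U 0` is arbitrary;
for `p ≥ 1` the logarithmic gonality of `U p` is at least `M p + 2`: all nonconstant rational functions
on `C p` which vanish at all points of `T p` have degree at least `M p + 2`. For example, `C p` is an
arbitrary curve, such as the projective line, and `T p` has at least `M p + 2` points; or the gonality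
of `C p` is at least `M p + 2`.

Let `V° → W°` be a dominant rational map, of finite degree, such that the boundary of `V°` is the
preimage of the boundary of `W°`, for example any finite morphism. The map is arbitrary otherwise; it
is not assumed to be related to the product structure, or to be Galois. Let `V' = C 1 × ... × C n`, let
`W'` be the image of `V` in `W × V'` and, for a nonempty set `Λ` of indices `p ≥ 1`, let `W' Λ` be its
image in the product of `W` and the `C p`, `p ∉ Λ`, and `m Λ` the degree of `W' → W' Λ`. In particular
`m Λ ≤ m`, where `m` is the degree of `V° → W°`. Suppose that `m Λ ≤ 1 + ∑_{p ∈ Λ} M p` for all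
`Λ ≠ ∅`.

* Then these are equivalent: `W°` has no logarithmic canonical forms; the logarithmic Kodaira dimension
  of `W°` is `-∞`; `K_W + D_W` is not pseudo-effective; `W°` is `A¹`-uniruled.
* Let `r ≤ n` be such that `2 m Λ ≤ 1 + ∑_{p ∈ Λ} M p` for all `Λ` with more than `n - r` elements.
  Then `W°` is `A¹`-uniruled or its logarithmic Kodaira dimension is at least `r`.

For example, suppose that the logarithmic gonality of `U 1, ..., U n` is at least `3` (for instance that
they are projective lines with at least three punctures), and that any two points of
`U 1 × ... × U n` over a general point of `W` differ in at least `m - 1` coordinates. Then the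
assumption holds with `M p = 1`, since `m Λ = 1` if `Λ` has less than `m - 1` elements. The degree can
be much larger than the logarithmic gonalities here, and `W°` may have no logarithmic differentials of
degree one. (The assumption also holds if the logarithmic gonalities of `U 1, ..., U n` are greater
than `m`, for instance for projective lines with at least `m + 1` punctures. In this case the fibres of
the quasi-Albanese map of `W°` have dimension at most one, and the result follows from the theorems of
Kawamata on the logarithmic Kodaira dimension.)

Proof. Let `h` be the trace on `W'` of one of the logarithmic canonical forms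
`η ∧ d x 1 ∧ ... ∧ d x n`, where `η` is a logarithmic differential on `U 0` and `x p` a function on
`C p`. The restrictions of these forms to the geometric generic fibre of `V° → V'` generate the space
of logarithmic differentials of the fibre. If the traces of all of them vanish, then the open curve
which is the image of the fibre in the geometric generic fibre of `W'` has no logarithmic
differentials, so it is the projective line minus at most one point, and `W°` is `A¹`-uniruled.
Otherwise let `G` be a product of functions `g p` on `C p` such that `g p d x p` is logarithmic, and
consider the logarithmic canonical forms `Tr (G h)` on `W°`. Suppose that their ratios generate a field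
of transcendence degree `e < r`. Let `w` and `w'` be independent generic points of a fibre of the map
of `W` given by these ratios, and `v_1, ..., v_m` and `v'_1, ..., v'_m` the points of `V'` over them.
There is a linear relation, with nonzero coefficients, between the values of the `G` in the `2 m`
points. By the marriage theorem one can assign to all points except `v_1` a factor in which they
differ from `v_1`, such that the factor `p` is used at most `M p` times. By duality on the curve and
the assumption on the logarithmic gonality, `M p + 1` different points of `U p` impose independent
conditions on the logarithmic differentials: otherwise there is a nonconstant function which vanishes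
on `T p` and whose poles are simple and among these points. So there is a product `G` which vanishes in
all points except `v_1`, a contradiction. The nonvanishing of one of the forms is shown in the same
way, with the `m` points `v_i`.
-/

set_option autoImplicit false
set_option linter.overlappingInstances false
set_option maxHeartbeats 4000000
set_option synthInstance.maxHeartbeats 400000

open FF Module Pool.Agent Pool.Agent.W602.GT
open Pool.Agent.W619.PL (IsA1Uniruled)

namespace Pool.Agent.Results.MP_410da7_ag.OpenCurveProducts

/-- The logarithmic geometric genus is zero: the only canonical form with at most logarithmic poles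
which is regular at all prime divisors that are not in the boundary is `0`. -/
def LogGenusZero (L : Type) [Field L] [Algebra ℂ L] (n : ℕ) (Bd : Place ℂ L → Prop) : Prop :=
  ∀ ω : (Fin n → Derivation ℂ L L) → L, LogSec ℂ L n 1 Bd ω → ∀ D, ω D = 0

/-- The logarithmic gonality of the open curve with the function field `E` and the points `T` at
infinity is at least `g`: all nonconstant functions which vanish at the points in `T` have degree at
least `g`. -/
def LogGonalityGe (E : Type) [Field E] [Algebra ℂ E] (T : Finset (Place ℂ E)) (g : ℕ) : Prop :=
  ∀ b : E, Transcendental ℂ b → (∀ P ∈ T, 0 < P.ord b) →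
    g ≤ finrank (IntermediateField.adjoin ℂ {b}) E

/-- The boundary of the product of the open curves: the places of its function field `K` which lie
over one of the points at infinity of one of the curves. -/
def Boundary {K : Type} [Field K] [Algebra ℂ K] {n : ℕ} {C : Fin n → IntermediateField ℂ K}
    (T : ∀ p, Finset (Place ℂ (C p))) (P : Place ℂ K) : Prop :=
  ∃ p, ∃ Q ∈ T p, ∃ e : ℕ, Over P Q e

/-- The degree `m Λ` of `W' → W' Λ`: the degree of the field which is generated over `L` by the
function fields of the curves `C p` over its subfield which is generated by those with `p ∉ Λ`. -/
noncomputable def blockDegree {K : Type} [Field K] [Algebra ℂ K] {n : ℕ} (L : Type) [Field L]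
    [Algebra L K] (C : Fin n → IntermediateField ℂ K) (Λ : Finset (Fin n)) : ℕ :=
  (IntermediateField.adjoin L {z | ∃ p, p ∉ Λ ∧ z ∈ C p}).relfinrank
    (IntermediateField.adjoin L {z | ∃ p, z ∈ C p})

/-- **Images of products of open curves.** Let `K` be the function field of the product of `n + 1`
curves, where the curve `p` has the function field `C p`: the field `K` is generated by the `C p` and
has transcendence degree `n + 1`. Let `T p` be a finite set of points of the curve `p`, and `V°` the
product of the open curves. Let the logarithmic gonality of the open curves with `p ≥ 1` be at least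
`M p + 2`. Let `V° → W°` be a dominant rational map of finite degree such that the boundary of `V°` is
the preimage of the boundary `Bd` of `W°`, `L` the function field of `W°`, and
`m Λ ≤ 1 + ∑_{p ∈ Λ} M p` for all nonempty sets `Λ` of indices `p ≥ 1`.
Then these are equivalent: `W°` has no logarithmic canonical forms; its logarithmic Kodaira dimension
is `-∞`; `K_W + D_W` is not pseudo-effective; `W°` is `A¹`-uniruled. If `r ≤ n` and
`2 m Λ ≤ 1 + ∑_{p ∈ Λ} M p` for all `Λ` with more than `n - r` elements, then `W°` is `A¹`-uniruled or
its logarithmic Kodaira dimension is at least `r`. -/
theorem result {n : ℕ} {K : Type} [Field K] [Algebra ℂ K]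
    {C : Fin (n + 1) → IntermediateField ℂ K} (hfg : ∀ p, Algebra.EssFiniteType ℂ (C p))
    (hone : ∀ p, Algebra.trdeg ℂ (C p) = 1) (hgen : ⨆ p, C p = ⊤)
    (hK : Algebra.trdeg ℂ K = (n + 1 : ℕ)) (T : ∀ p, Finset (Place ℂ (C p))) {M : Fin n → ℕ}
    (hgon : ∀ p : Fin n, LogGonalityGe (C p.succ) (T p.succ) (M p + 2))
    (L : Type) [Field L] [Algebra ℂ L] [Algebra L K] [IsScalarTower ℂ L K]
    [FiniteDimensional L K] {Bd : Place ℂ L → Prop}
    (hBd : ∀ (P : Place ℂ L) (Q : Place ℂ K) (e : ℕ), Over Q P e → (Bd P ↔ Boundary T Q))
    (hdeg : ∀ Λ : Finset (Fin n), Λ.Nonempty →
      blockDegree L (fun p : Fin n => C p.succ) Λ ≤ 1 + ∑ p ∈ Λ, M p) :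
    [LogGenusZero L (n + 1) Bd, ¬ KodGe ℂ L (n + 1) Bd 0, ¬ Psef ℂ L (n + 1) Bd,
      IsA1Uniruled ℂ L (n + 1) Bd].TFAE ∧
    ∀ r : ℕ, r ≤ n →
      (∀ Λ : Finset (Fin n), n - r < Λ.card →
        2 * blockDegree L (fun p : Fin n => C p.succ) Λ ≤ 1 + ∑ p ∈ Λ, M p) →
      IsA1Uniruled ℂ L (n + 1) Bd ∨ KodGe ℂ L (n + 1) Bd r := by
  have hFF : ∀ p, IsFF ℂ (C p) := fun p => ⟨hfg p, hone p⟩
  obtain ⟨h1, h2⟩ := Pool.Agent.K4H25.LP.main_prod_log (C := C) hgen hK T (M := M)
    (fun p b hb hbT => hgon p b hb hbT) L hBd
    (fun Λ hΛ => (hdeg Λ hΛ).trans_eq (add_comm _ _))
  exact ⟨h1, fun r hr hk => h2 r hr fun Λ hΛ => (hk Λ (by omega)).trans_eq (add_comm _ _)⟩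

end Pool.Agent.Results.MP_410da7_ag.OpenCurveProducts
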