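import Pool.Agent.K4H40.TF.Torus

/-!
# `A¹`-uniruledness and the logarithmic Kodaira dimension of toric fibrations over curves

Let `X` be a quasi-projective variety, of any dimension `r + 1`, with the function field `K`, and
`X ⇢ C` a dominant rational map to a curve with the function field `F`, such that the generic fibre of
`X` over `F` is a toric variety for the split torus with the coordinates `t 1, ..., t r`: `K = F(t)`,
and a place of `K` which is trivial on `F` has a centre on `X` if and only if the vector of the orders
of the `t i` lies in the set `S` of the integral points of the fan. There is no condition on the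
special fibres. Then the following are equivalent:

* the logarithmic Kodaira dimension of `X` is `-∞`;
* the logarithmic canonical bundle of `X` is not pseudo-effective;
* `X` is `A¹`-uniruled;
* the fan of the generic fibre has a ray, or the base with the multiplicities of the fibres is a
  rational curve with `∑ (1 - 1 / m q) < 2`. Here `m q` is the least multiplicity over `q` of the
  toric places of `K` which have a centre on `X` (infinite if there are none).

For instance, `X` can be a variety with a generically free action of a torus of dimension
`dim X - 1`; see the theorem `torus_tfae` of `Pool/Agent/K4H40/TF/Torus`.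

The proof. If there is no ray, forms `a (dx ∧ dt/t ∧ ... ∧ dt/t) ^ m` are sections of the
logarithmic pluricanonical bundle if the orbifold base is not spherical: a place at which such a form
is not as regular as it should be is toric (a residue argument with derivations). If the orbifold
base is spherical, the Platonic identities `A ^ a - B ^ b = C ^ c` give a covering of the base
which is étale in the orbifold sense, on which the torus fibration becomes a product with an affine
line, up to places outside of the boundary.
-/

set_option autoImplicit false

open FF Pool.Agent.W602.GT Pool.Agent.K4H40.TF IntermediateField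

namespace Pool.Agent.Results.MP_410da7_ag.ToricFibrations

/-- A quasi-projective variety `X` with the function field `K`: `y` is the generic point of its closure
in `P ^ N` (the ratios of the coordinates generate `K`), and `X` is the open subset of the closure where
some of the forms `Q l` is not zero. -/
structure QVar (K : Type) [Field K] [Algebra ℂ K] (N : ℕ) (ι : Type) where
  y : Fin (N + 1) → K
  Q : ι → MvPolynomial (Fin (N + 1)) ℂ
  d : ι → ℕ
  ne : y ≠ 0
  gen : IntermediateField.adjoin ℂ {z : K | ∃ i j, y j ≠ 0 ∧ z = y i / y j} = ⊤
  hom : ∀ l, (Q l).IsHomogeneous (d l)
  nonempty : ∃ l, MvPolynomial.aeval y (Q l) ≠ 0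

/-- The places of `K` without a centre on `X`. -/
def QVar.Boundary {K : Type} [Field K] [Algebra ℂ K] {N : ℕ} {ι : Type} (X : QVar K N ι)
    (P : Place ℂ K) : Prop := ¬ HasCentre X.y X.Q P

/-- **Toric fibrations over curves.** Let `X` be a quasi-projective variety of dimension `r + 1` with
the function field `K`, let `F` be the function field of a curve in `K`, and suppose that the generic
fibre of `X` over `F` is a toric variety: `K` is the field of rational functions in `t` over `F`, and a
place of `K` which is trivial on `F` has a centre on `X` if and only if the vector of the orders of the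
`t i` is in the conical set `S`. Then are equivalent: the logarithmic Kodaira dimension of `X` is
`-∞`; the logarithmic canonical bundle is not pseudo-effective; `X` is `A¹`-uniruled; `S` is not only
the origin, or `F` is rational and `∑ (1 - 1 / m q) < 2`, where `m q` is the multiplicity of the
fibre over the point `q` (`m q = 0` stands for an infinite multiplicity). -/
theorem result {K : Type} [Field K] [Algebra ℂ K] {F : IntermediateField ℂ K} [IsFF ℂ F] {r : ℕ}
    {t : Fin r → K} (ht : AlgebraicIndependent F t)
    (htop : IntermediateField.adjoin F (Set.range t) = ⊤) {N : ℕ} {ι : Type} (X : QVar K N ι)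
    {S : Set (Fin r → ℤ)} (hS0 : (0 : Fin r → ℤ) ∈ S)
    (hS : ∀ (k : ℕ) (u : Fin r → ℤ), 0 < k → (k • u ∈ S ↔ u ∈ S))
    (hX : ∀ P : Place ℂ K, TrivialOn F P → (¬ X.Boundary P ↔ (fun i => P.ord (t i)) ∈ S)) :
    [¬ KodGe ℂ K (r + 1) X.Boundary 0, ¬ Psef ℂ K (r + 1) X.Boundary,
      Pool.Agent.W619.PL.IsA1Uniruled ℂ K (r + 1) X.Boundary,
      S ≠ {0} ∨ ((∃ x : F, ℂ⟮x⟯ = ⊤) ∧
        ∑ᶠ q : Place ℂ F, (1 - 1 / (mult F t X.Boundary q : ℚ)) < 2)].TFAE :=
  main_tfae ht htop X.ne X.nonempty hS0 hS fun P hP => by
    rw [← hX P hP, QVar.Boundary, not_not]

end Pool.Agent.Results.MP_410da7_ag.ToricFibrations
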