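import Pool.Agent.K4H25.LP.Full

/-!
# Logarithmic Kodaira dimension of the images of open varieties over products of open curves

Let `C 1, ..., C n` be projective curves over the complex numbers, `T p` a finite set of points of
`C p` (possibly empty) and `U p = C p ∖ T p`. Let the logarithmic gonality of `U p` be at least
`M p + 2`: all nonconstant rational functions on `C p` which vanish at all points of `T p` have degree
at least `M p + 2`. For example, `C p` is the projective line and `T p` has at least `M p + 2` points,
or the gonality of `C p` is at least `M p + 2`.

Let `V°` be any open variety of dimension `n` with a generically finite rational map to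
`U 1 × ... × U n` which is proper or at least a morphism in codimension one: the prime divisors over
`V°` which lie over a point of some `T p` are in the boundary of `V°`. Here `V°` can be very different
from the product of the curves, for example an arbitrary (branched) cover of it, or an open subset of a
cover. Let `V° → W°` be a dominant rational map, of finite degree, such that the boundary of `V°` is
contained in the preimage of the boundary of `W°`, for example any proper generically finite morphism.
The map is arbitrary otherwise; it is not assumed to be Galois, or to be related to the curves. Let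
`W'` be the image of `V` in `W × C 1 × ... × C n` and, for a nonempty set `Λ` of indices, let `W' Λ` be
its image in the product of `W` and the `C p`, `p ∉ Λ`, and `m Λ` the degree of `W' → W' Λ`. In
particular `m Λ ≤ m`, where `m` is the degree of `V° → W°`. Suppose that
`m Λ ≤ 1 + ∑_{p ∈ Λ} M p` for all `Λ ≠ ∅`.

* Then `W°` has a nonzero logarithmic canonical form; its logarithmic Kodaira dimension is at least
  `0`, `K_W + D_W` is pseudo-effective, and `W°` is not `A¹`-uniruled.
* Let `r ≤ n` be such that `2 m Λ ≤ 1 + ∑_{p ∈ Λ} M p` for all `Λ` with more than `n - r` elements.
  Then the logarithmic Kodaira dimension of `W°` is at least `r`. In particular `W°` is of log general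
  type if this holds for all `Λ ≠ ∅`.

For example, suppose that all logarithmic gonalities are at least `3` (for instance that the `U p` are
projective lines with at least three punctures), and that any two points of `U 1 × ... × U n` over a
general point of `W` differ in at least `m - 1` coordinates. Then the assumption holds with `M p = 1`,
since `m Λ = 1` if `Λ` has less than `m - 1` elements. If they differ in at least `2 m - 1` coordinates
then `W°` is of log general type. The degree can be much larger than the logarithmic gonalities here,
and `W°` may have no logarithmic differentials of degree one. (The assumption also holds if all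
logarithmic gonalities are greater than `m`. In this case the quasi-Albanese map of `W°` is generically
finite, and it is known that the logarithmic Kodaira dimension is at least `0`.)

Proof. Let `h` be the trace on `W'` of the form `d x 1 ∧ ... ∧ d x n`, where `x p` is a function on
`C p`, let `G` be a product of functions `g p` on `C p` such that `g p d x p` is logarithmic on `U p`,
and consider the logarithmic canonical forms `Tr (G h)` on `W°`. Suppose that their ratios generate a
field `E` of transcendence degree `e < r`. Let `w` and `w'` be independent generic points of a fibre of
the map of `W` given by these ratios, and `v_1, ..., v_m` and `v'_1, ..., v'_m` the points of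
`C 1 × ... × C n` over them. There is a linear relation, with nonzero coefficients, between the values
of the `G` in the `2 m` points. If `v_1` and `v'_i` agree in the factors `p ∉ Λ` then
`n - |Λ| ≤ e < r`. The number of the `i` such that `v_i` and `v_1` agree in the factors `p ∉ Λ` is
`m Λ`, and the number of the `v'_i` is `0` or `m Λ`. By the marriage theorem one can assign to all
points except `v_1` a factor in which they differ from `v_1`, such that the factor `p` is used at most
`M p` times. By duality on the curve and the assumption on the logarithmic gonality, `M p + 1`
different points of `U p` impose independent conditions on the logarithmic differentials; this also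
holds for points with values in an extension of the base field, by specialization. So there is a
product `G` which vanishes in all points except `v_1`, a contradiction. The nonvanishing of one of the
forms is shown in the same way, with the `m` points `v_i`.
-/

set_option autoImplicit false
set_option linter.overlappingInstances false
set_option maxHeartbeats 4000000
set_option synthInstance.maxHeartbeats 400000

open FF Module Pool.Agent Pool.Agent.W602.GT
open Pool.Agent.W619.PL (IsA1Uniruled)

namespace Pool.Agent.Results.MP_410da7_ag.VarietiesOverOpenCurves

/-- The logarithmic gonality of the open curve with the function field `E` and the points `T` at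
infinity is at least `g`: all nonconstant functions which vanish at the points in `T` have degree at
least `g`. -/
def LogGonalityGe (E : Type) [Field E] [Algebra ℂ E] (T : Finset (Place ℂ E)) (g : ℕ) : Prop :=
  ∀ b : E, Transcendental ℂ b → (∀ P ∈ T, 0 < P.ord b) →
    g ≤ finrank (IntermediateField.adjoin ℂ {b}) E

/-- The place `P` of `K` lies over one of the points at infinity of one of the curves. -/
def OverInfinity {K : Type} [Field K] [Algebra ℂ K] {n : ℕ} {C : Fin n → IntermediateField ℂ K}
    (T : ∀ p, Finset (Place ℂ (C p))) (P : Place ℂ K) : Prop :=
  ∃ p, ∃ Q ∈ T p, ∃ e : ℕ, Over P Q e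

/-- The degree `m Λ` of `W' → W' Λ`: the degree of the field which is generated over `L` by the
function fields of the curves `C p` over its subfield which is generated by those with `p ∉ Λ`. -/
noncomputable def blockDegree {K : Type} [Field K] [Algebra ℂ K] {n : ℕ} (L : Type) [Field L]
    [Algebra L K] (C : Fin n → IntermediateField ℂ K) (Λ : Finset (Fin n)) : ℕ :=
  (IntermediateField.adjoin L {z | ∃ p, p ∉ Λ ∧ z ∈ C p}).relfinrank
    (IntermediateField.adjoin L {z | ∃ p, z ∈ C p})

/-- **Images of open varieties over products of open curves.** Let `V°` be an open variety of dimension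
`n` with function field `K` and boundary `BV`, and with rational maps to the curves with the function
fields `C p`, such that `V` is generically finite over their product: the field generated by the `C p`
has transcendence degree `n`. Let `T p` be a finite set of points of the curve `p`, such that the places
over `T p` are in the boundary of `V°`, and let the logarithmic gonality of the open curve `p` be at
least `M p + 2`. Let `V° → W°` be a dominant rational map of finite degree, `L` the function field and
`BW` the boundary of `W°`, such that the places in `BV` lie over places in `BW`, and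
`m Λ ≤ 1 + ∑_{p ∈ Λ} M p` for all nonempty sets `Λ`.
Then `W°` has a nonzero logarithmic canonical form, its logarithmic Kodaira dimension is at least `0`,
`K_W + D_W` is pseudo-effective, and `W°` is not `A¹`-uniruled. If `r ≤ n` and
`2 m Λ ≤ 1 + ∑_{p ∈ Λ} M p` for all `Λ` with more than `n - r` elements, then the logarithmic Kodaira
dimension of `W°` is at least `r`. -/
theorem result {n : ℕ} {K : Type} [Field K] [Algebra ℂ K] [Algebra.EssFiniteType ℂ K]
    (hK : Algebra.trdeg ℂ K = (n : ℕ)) {C : Fin n → IntermediateField ℂ K}
    (hfg : ∀ p, Algebra.EssFiniteType ℂ (C p)) (hone : ∀ p, Algebra.trdeg ℂ (C p) = 1)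
    (hgen : Algebra.trdeg ℂ (⨆ p, C p : IntermediateField ℂ K) = (n : ℕ))
    (T : ∀ p, Finset (Place ℂ (C p))) {M : Fin n → ℕ}
    (hgon : ∀ p : Fin n, LogGonalityGe (C p) (T p) (M p + 2)) {BV : Place ℂ K → Prop}
    (hBV : ∀ P, OverInfinity T P → BV P)
    (L : Type) [Field L] [Algebra ℂ L] [Algebra L K] [IsScalarTower ℂ L K]
    [FiniteDimensional L K] {BW : Place ℂ L → Prop}
    (hBW : ∀ (P : Place ℂ L) (Q : Place ℂ K) (e : ℕ), Over Q P e → BV Q → BW P)
    (hdeg : ∀ Λ : Finset (Fin n), Λ.Nonempty → blockDegree L C Λ ≤ 1 + ∑ p ∈ Λ, M p) :
    ((∃ ω : (Fin n → Derivation ℂ L L) → L, LogSec ℂ L n 1 BW ω ∧ ∃ D, ω D ≠ 0) ∧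
      KodGe ℂ L n BW 0 ∧ Psef ℂ L n BW ∧ ¬ IsA1Uniruled ℂ L n BW) ∧
    ∀ r : ℕ, r ≤ n →
      (∀ Λ : Finset (Fin n), n - r < Λ.card → 2 * blockDegree L C Λ ≤ 1 + ∑ p ∈ Λ, M p) →
      KodGe ℂ L n BW r := by
  have hFF : ∀ p, IsFF ℂ (C p) := fun p => ⟨hfg p, hone p⟩
  have hess' : Algebra.EssFiniteType ℂ L := Pool.Agent.TH466.QG.ess_below (K := K)
  have hL : Algebra.trdeg ℂ L = (n : ℕ) := Pool.Agent.Y184.NT.trdeg_below (K := K) hK
  have hC : (⨆ p, C p : IntermediateField ℂ K) =
      IntermediateField.adjoin ℂ {z | ∃ p, z ∈ C p} := by
    apply le_antisymm
    · exact iSup_le fun p z hz => IntermediateField.subset_adjoin ℂ _ ⟨p, hz⟩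
    · rw [IntermediateField.adjoin_le_iff]
      rintro z ⟨p, hz⟩
      exact le_iSup C p hz
  rw [hC] at hgen
  obtain ⟨h1, h2⟩ := Pool.Agent.K4H25.LP.main_curves_log hK hgen (M := M)
    (fun p b hb hbT => hgon p b hb hbT) (BK := BV) hBV L hBW
    (fun Λ hΛ => (hdeg Λ hΛ).trans_eq (add_comm _ _))
  have h0 : KodGe ℂ L n BW 0 := by
    obtain ⟨ω, hω, D, hD⟩ := h1
    exact ⟨1, one_pos, fun _ => ω, fun _ => hω, D, hD, algebraicIndependent_empty_type⟩
  exact ⟨⟨h1, h0, psef_of_kodGe h0, fun h => Pool.Agent.K4H25.LP.a1u_not_psef hL h
    (psef_of_kodGe h0)⟩, fun r hr hk => h2 r hr fun Λ hΛ =>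
      (hk Λ (by omega)).trans_eq (add_comm _ _)⟩

end Pool.Agent.Results.MP_410da7_ag.VarietiesOverOpenCurves
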